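import Pool.Agent.H801.MVInst
import Pool.Agent.H633R2.Fpt

/-!
# Shortest Path Most Vital Edges is W[1]-hard with respect to the number of deleted edges

A reduction from Clique parameterized by the size `k` of the clique; the new budget is `4k²`.
-/

set_option autoImplicit false

namespace Pool.Agent.NPC.H801.MV

open Pool.Agent.NPC Pool.Agent.H801.MV Pool.Agent.H633R2

/-- an instance of Clique: matrix and size -/
abbrev Src : Type := List (List Bool) × ℕ

/-- number of vertices -/
def nS (z : Src) : ℕ := z.1.length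

/-- the smaller one of `k` and the number of vertices -/
def kS (z : Src) : ℕ := min z.2 z.1.length

/-- adjacency in the source graph -/
def ed (A : List (List Bool)) (u v : ℕ) : Bool := !(decide (u = v)) && (entry A u v || entry A v u)

/-- the constructed instance -/
def inst (z : Src) : List (List ℕ) × ℕ × ℕ × ℕ × ℕ :=
  if z.2 ≤ z.1.length then
    (cmat (verts (nS z) (kS z) (ed z.1)) (col (nS z) (ed z.1)), 0, 1, 4 * (z.2 * z.2),
      8 * (nS z * nS z) * (2 * (nS z * nS z) + 2) + 8 * (nS z * nS z))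
  else ([[0, 1], [1, 0]], 0, 1, 0, 2)

/-! ### Cliques -/

theorem hasClique_iff (A : List (List Bool)) (k : ℕ) :
    HasClique (A, k) ↔ ∃ x : ℕ → ℕ, (∀ i < k, x i < A.length) ∧
      ∀ i < k, ∀ j < k, i ≠ j → ed A (x i) (x j) = true := by
  have hadj : ∀ a b : Fin A.length, (graphOf A).Adj a b ↔ ed A a b = true := by
    intro a b
    unfold graphOf ed
    simp [Fin.ext_iff]
  have h0 : HasClique (A, k) ↔ ¬ (graphOf A).CliqueFree k := by
    unfold HasClique SimpleGraph.CliqueFree
    push Not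
    rfl
  rw [h0, SimpleGraph.not_cliqueFree_iff_top_isContained]
  constructor
  · rintro ⟨e⟩
    refine ⟨fun i => if h : i < k then (e ⟨i, h⟩ : ℕ) else 0, ?_, ?_⟩
    · intro i hi
      simp [hi]
    · intro i hi j hj hij
      simp only [hi, hj, dif_pos]
      rw [← hadj]
      exact e.toHom.map_adj (by simp [Fin.ext_iff, hij])
  · rintro ⟨x, hx, hc⟩
    have hinj : ∀ i < k, ∀ j < k, x i = x j → i = j := by
      intro i hi j hj hxy
      by_contra hij
      have := hc i hi j hj hij
      unfold ed at this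
      simp [hxy] at this
    refine ⟨⟨⟨fun i => ⟨x i, hx i i.2⟩, ?_⟩, ?_⟩⟩
    · intro a b h
      rw [hadj]
      simp only [SimpleGraph.completeGraph_eq_top, SimpleGraph.top_adj] at h
      exact hc a a.2 b b.2 (fun h' => h (Fin.ext h'))
    · intro a b hab
      have h1 : (⟨x a, hx a a.2⟩ : Fin A.length) = ⟨x b, hx b b.2⟩ := hab
      exact Fin.ext (hinj a a.2 b b.2 (by simpa using h1))

/-! ### The construction takes polynomial time -/

section
variable {α : Type} [TEnc α] {z : α → Src} {x y : α → ML}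

theorem upoly_nS (hz : Poly z) : UPoly (fun a => nS (z a)) := UPoly.length (Poly.fst hz)

theorem upoly_kS (hz : Poly z) : UPoly (fun a => kS (z a)) :=
  UPoly.of_le (Poly.min (Poly.snd hz) (Poly.length (Poly.fst hz))) (upoly_nS hz)
    (fun _ => min_le_right _ _)

theorem poly_n (hz : Poly z) : Poly (fun a => nS (z a)) := (upoly_nS hz).toPoly

theorem poly_N (hz : Poly z) : Poly (fun a => nS (z a) * nS (z a)) :=
  Poly.mul (poly_n hz) (poly_n hz)

theorem poly_mN (m : ℕ) (hz : Poly z) : Poly (fun a => m * (nS (z a) * nS (z a))) :=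
  Poly.mul (Poly.const m) (poly_N hz)

theorem poly_ed (hz : Poly z) {u v : α → ℕ} (hu : Poly u) (hv : Poly v) :
    Poly (fun a => ed (z a).1 (u a) (v a)) :=
  Poly.and (Poly.not (Poly.decide_eq hu hv)) (Poly.or
    (Poly.getD (Poly.getD (Poly.fst hz) hu (Poly.const [])) hv (Poly.const false))
    (Poly.getD (Poly.getD (Poly.fst hz) hv (Poly.const [])) hu (Poly.const false)))

theorem poly_okp (hz : Poly z) {i j u v : α → ℕ} (hi : Poly i) (hj : Poly j) (hu : Poly u)
    (hv : Poly v) : Poly (fun a => okp (ed (z a).1) (i a) (j a) (u a) (v a)) :=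
  Poly.ite (Poly.decide_eq hi hj) (Poly.decide_eq hu hv) (poly_ed hz hu hv)

theorem poly_useful (hz : Poly z) {i j p : α → ℕ} (hi : Poly i) (hj : Poly j) (hp : Poly p) :
    Poly (fun a => useful (nS (z a)) (ed (z a).1) (i a) (j a) (p a)) :=
  Poly.ite (Poly.decide_lt hp (poly_N hz))
    (poly_okp hz hi hj (Poly.div hp (poly_n hz)) (Poly.mod hp (poly_n hz)))
    (poly_okp hz hi hj (Poly.mod (Poly.sub hp (poly_N hz)) (poly_n hz))
      (Poly.div (Poly.sub hp (poly_N hz)) (poly_n hz)))

theorem poly_code (hz : Poly z) {p : α → ℕ} (hp : Poly p) :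
    Poly (fun a => code (nS (z a)) (p a)) :=
  Poly.ite (Poly.decide_lt hp (poly_N hz)) hp
    (Poly.add (Poly.mul (Poly.mod (Poly.sub hp (poly_N hz)) (poly_n hz)) (poly_n hz))
      (Poly.div (Poly.sub hp (poly_N hz)) (poly_n hz)))

theorem poly_wt (hz : Poly z) {i j c p : α → ℕ} (hi : Poly i) (hj : Poly j) (hc : Poly c)
    (hp : Poly p) : Poly (fun a => wt (nS (z a)) (ed (z a).1) (i a) (j a) (c a) (p a)) :=
  Poly.ite (Poly.decide_bool (poly_useful hz hi hj hp))
    (Poly.ite (Poly.decide_lt hp (poly_N hz))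
      (Poly.ite (Poly.decide_eq hc (Poly.const 0)) (Poly.add (poly_mN 3 hz) (poly_code hz hp))
        (Poly.sub (poly_mN 5 hz) (poly_code hz hp)))
      (Poly.ite (Poly.decide_eq hc (Poly.const 0)) (Poly.sub (poly_mN 5 hz) (poly_code hz hp))
        (Poly.add (poly_mN 3 hz) (poly_code hz hp))))
    (Poly.const 0)

theorem poly_cross (hz : Poly z) {i j i' j' p : α → ℕ} (hi : Poly i) (hj : Poly j)
    (hi' : Poly i') (hj' : Poly j') (hp : Poly p) :
    Poly (fun a => cross (nS (z a)) (i a) (j a) (i' a) (j' a) (p a)) :=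
  Poly.or
    (Poly.and (Poly.and (Poly.decide_le hp (poly_N hz)) (Poly.decide_eq hi hi'))
      (Poly.or (Poly.decide_eq hj hj') (Poly.decide_eq (Poly.mod hp (poly_n hz)) (Poly.const 0))))
    (Poly.and (Poly.and (Poly.decide_le (poly_N hz) hp) (Poly.decide_eq hj hj'))
      (Poly.or (Poly.decide_eq hi hi') (Poly.decide_eq (Poly.mod hp (poly_n hz)) (Poly.const 0))))

theorem poly_dl (hz : Poly z) : Poly (fun a => dl (nS (z a))) :=
  Poly.add (Poly.add (poly_mN 8 hz) (Poly.mul (poly_mN 8 hz) (poly_N hz))) (poly_mN 5 hz)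

theorem p1 (hx : Poly x) : Poly (fun a => (x a).1) := Poly.fst hx
theorem p2 (hx : Poly x) : Poly (fun a => (x a).2.1) := Poly.fst (Poly.snd hx)
theorem p3 (hx : Poly x) : Poly (fun a => (x a).2.2.1) := Poly.fst (Poly.snd (Poly.snd hx))
theorem p4 (hx : Poly x) : Poly (fun a => (x a).2.2.2.1) :=
  Poly.fst (Poly.snd (Poly.snd (Poly.snd hx)))
theorem p5 (hx : Poly x) : Poly (fun a => (x a).2.2.2.2) :=
  Poly.snd (Poly.snd (Poly.snd (Poly.snd hx)))

theorem pe {u : α → ℕ} (hu : Poly u) (m : ℕ) : Poly (fun a => decide (u a = m)) :=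
  Poly.decide_eq hu (Poly.const m)

theorem poly_und1 (hz : Poly z) (hx : Poly x) (hy : Poly y) :
    Poly (fun a => und1 (nS (z a)) (ed (z a).1) (x a) (y a)) :=
  Poly.ite (Poly.decide_bool (Poly.and (pe (p1 hx) 0) (pe (p1 hy) 2)))
    (Poly.ite (pe (p5 hy) 0) (poly_mN 8 hz)
      (Poly.ite (Poly.decide_eq (p5 hy) (poly_N hz)) (poly_dl hz) (Poly.const 0)))
    (Poly.ite (Poly.decide_bool (Poly.and (pe (p1 hx) 2) (pe (p1 hy) 1)))
      (Poly.ite (Poly.decide_eq (p5 hx) (poly_mN 2 hz)) (poly_mN 8 hz)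
        (Poly.ite (Poly.decide_eq (p5 hx) (poly_N hz)) (poly_dl hz) (Poly.const 0)))
      (Poly.ite (Poly.decide_bool (Poly.and (pe (p1 hx) 2) (pe (p1 hy) 2)))
        (Poly.ite (Poly.decide_bool (Poly.and (Poly.and (Poly.and
            (Poly.decide_eq (p2 hx) (p2 hy)) (Poly.decide_eq (p3 hx) (p3 hy)))
            (Poly.decide_eq (p4 hx) (p4 hy)))
            (Poly.decide_eq (p5 hy) (Poly.add (p5 hx) (Poly.const 1)))))
          (Poly.add (poly_mN 8 hz) (poly_wt hz (p2 hx) (p3 hx) (p4 hx) (p5 hx)))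
          (Poly.ite (Poly.decide_bool (Poly.and (Poly.and
              (Poly.decide_eq (p5 hx) (p5 hy)) (Poly.not (Poly.decide_eq hx hy)))
              (poly_cross hz (p2 hx) (p3 hx) (p2 hy) (p3 hy) (p5 hx))))
            (poly_mN 2 hz) (Poly.const 0)))
        (Poly.const 0)))

theorem poly_und (hz : Poly z) (hx : Poly x) (hy : Poly y) :
    Poly (fun a => und (nS (z a)) (ed (z a).1) (x a) (y a)) :=
  Poly.max (poly_und1 hz hx hy) (poly_und1 hz hy hx)

theorem poly_ord1 (hx : Poly x) (hy : Poly y) : Poly (fun a => ord1 (x a) (y a)) :=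
  Poly.and (Poly.and (Poly.and (Poly.and (Poly.and (pe (p1 hx) 2) (pe (p1 hy) 2))
    (Poly.decide_eq (p2 hx) (p2 hy))) (Poly.decide_eq (p3 hx) (p3 hy)))
    (Poly.decide_eq (p4 hx) (p4 hy))) (Poly.decide_eq (p5 hy) (Poly.add (p5 hx) (Poly.const 1)))

theorem poly_half (hz : Poly z) {m : α → Lab} (hm : Poly m) (hx : Poly x) :
    Poly (fun a => half (nS (z a)) (ed (z a).1) (m a) (x a)) :=
  Poly.ite (Poly.decide_eq (Poly.fst hm) hx) (Poly.const 1)
    (Poly.ite (Poly.decide_eq (Poly.fst (Poly.snd hm)) hx)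
      (Poly.sub (poly_und hz (Poly.fst hm) (Poly.fst (Poly.snd hm))) (Poly.const 1))
      (Poly.const 0))

theorem poly_col (hz : Poly z) {a' b' : α → Lab} (ha : Poly a') (hb : Poly b') :
    Poly (fun a => col (nS (z a)) (ed (z a).1) (a' a) (b' a)) :=
  Poly.ite (Poly.decide_eq (Poly.fst ha) (Poly.fst (Poly.snd ha)))
    (Poly.ite (Poly.decide_eq (Poly.fst hb) (Poly.fst (Poly.snd hb)))
      (Poly.ite (Poly.decide_bool (Poly.or (poly_ord1 (Poly.fst ha) (Poly.fst hb))
        (poly_ord1 (Poly.fst hb) (Poly.fst ha)))) (poly_mN 8 hz) (Poly.const 0))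
      (poly_half hz hb (Poly.fst ha)))
    (Poly.ite (Poly.decide_eq (Poly.fst hb) (Poly.fst (Poly.snd hb)))
      (poly_half hz ha (Poly.fst hb)) (Poly.const 0))

theorem poly_vld (hz : Poly z) {a' : α → Lab} (ha : Poly a') :
    Poly (fun a => vld (nS (z a)) (ed (z a).1) (a' a)) :=
  Poly.or
    (Poly.and (Poly.and (Poly.decide_eq (Poly.fst ha) (Poly.fst (Poly.snd ha)))
      (pe (Poly.snd (Poly.snd ha)) 0))
      (Poly.and (Poly.not (Poly.decide_eq (Poly.fst ha) (Poly.const sM)))
        (Poly.not (Poly.decide_eq (Poly.fst ha) (Poly.const tM)))))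
    (Poly.and (Poly.not (Poly.decide_eq (Poly.fst ha) (Poly.fst (Poly.snd ha))))
      (Poly.not (pe (poly_und hz (Poly.fst ha) (Poly.fst (Poly.snd ha))) 0)))

end

theorem poly_mains : Poly (fun z : Src => mains (nS z) (kS z)) := by
  have hid : Poly (fun z : Src => z) := Poly.id
  have c1 : ∀ {β : Type} [TEnc β] {f : β → Src}, Poly f → Poly (fun z : β × ℕ => f z.1) :=
    fun hf => hf.comp (Poly.fst Poly.id)
  have g1 := c1 hid
  have g2 := c1 g1
  have g3 := c1 g2
  have hlab : Poly (fun w : (((Src × ℕ) × ℕ) × ℕ) × ℕ =>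
      ((2, w.1.1.1.2, w.1.1.2, w.1.2, w.2) : ML)) := by
    have h0 : Poly (fun w : (((Src × ℕ) × ℕ) × ℕ) × ℕ => w) := Poly.id
    have h1 := Poly.fst h0
    have h2 := Poly.fst h1
    have h3 := Poly.fst h2
    exact Poly.pair (Poly.const 2) (Poly.pair (Poly.snd h3) (Poly.pair (Poly.snd h2)
      (Poly.pair (Poly.snd h1) (Poly.snd h0))))
  have l3 : Poly (fun w : ((Src × ℕ) × ℕ) × ℕ =>
      (List.range (2 * (nS w.1.1.1 * nS w.1.1.1) + 1)).map fun p =>
        ((2, w.1.1.2, w.1.2, w.2, p) : ML)) :=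
    Poly.map (F := fun (w : ((Src × ℕ) × ℕ) × ℕ) p => ((2, w.1.1.2, w.1.2, w.2, p) : ML))
      (UPoly.add (UPoly.mul (UPoly.const 2) (UPoly.mul (upoly_nS g3) (upoly_nS g3)))
        (UPoly.const 1)).range hlab
  have l2 : Poly (fun w : (Src × ℕ) × ℕ => (List.range 2).flatMap fun c =>
      (List.range (2 * (nS w.1.1 * nS w.1.1) + 1)).map fun p => ((2, w.1.2, w.2, c, p) : ML)) :=
    Poly.flatMap (F := fun (w : (Src × ℕ) × ℕ) c =>
      (List.range (2 * (nS w.1.1 * nS w.1.1) + 1)).map fun p => ((2, w.1.2, w.2, c, p) : ML))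
      (UPoly.range (UPoly.const 2)) l3
  have l1 : Poly (fun w : Src × ℕ => (List.range (kS w.1)).flatMap fun j =>
      (List.range 2).flatMap fun c =>
      (List.range (2 * (nS w.1 * nS w.1) + 1)).map fun p => ((2, w.2, j, c, p) : ML)) :=
    Poly.flatMap (F := fun (w : Src × ℕ) j => (List.range 2).flatMap fun c =>
      (List.range (2 * (nS w.1 * nS w.1) + 1)).map fun p => ((2, w.2, j, c, p) : ML))
      (upoly_kS g1).range l2
  have l0 : Poly (fun z : Src => (List.range (kS z)).flatMap fun i =>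
      (List.range (kS z)).flatMap fun j => (List.range 2).flatMap fun c =>
      (List.range (2 * (nS z * nS z) + 1)).map fun p => ((2, i, j, c, p) : ML)) :=
    Poly.flatMap (F := fun (z : Src) i =>
      (List.range (kS z)).flatMap fun j => (List.range 2).flatMap fun c =>
      (List.range (2 * (nS z * nS z) + 1)).map fun p => ((2, i, j, c, p) : ML))
      (upoly_kS hid).range l1
  exact Poly.cons (Poly.const sM) (Poly.cons (Poly.const tM) l0)

theorem poly_verts : Poly (fun z : Src => verts (nS z) (kS z) (ed z.1)) := by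
  have hid : Poly (fun z : Src => z) := Poly.id
  have g1 : Poly (fun w : Src × ML => w.1) := Poly.fst Poly.id
  have g2 : Poly (fun w : (Src × ML) × ML => w.1.1) := Poly.fst (Poly.fst Poly.id)
  have hlab : Poly (fun w : ((Src × ML) × ML) × ℕ => ((w.1.1.2, w.1.2, w.2) : Lab)) := by
    have h0 : Poly (fun w : ((Src × ML) × ML) × ℕ => w) := Poly.id
    have h1 := Poly.fst h0
    have h2 := Poly.fst h1
    exact Poly.pair (Poly.snd h2) (Poly.pair (Poly.snd h1) (Poly.snd h0))
  have l2 : Poly (fun w : (Src × ML) × ML =>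
      ((List.range (4 * (kS w.1.1 * kS w.1.1) + 1)).map fun r =>
        ((w.1.2, w.2, r) : Lab)).filter (vld (nS w.1.1) (ed w.1.1.1))) := by
    refine Poly.filter (p := fun (w : (Src × ML) × ML) (a : Lab) =>
      vld (nS w.1.1) (ed w.1.1.1) a) ?_ ?_
    · exact Poly.map (F := fun (w : (Src × ML) × ML) r => ((w.1.2, w.2, r) : Lab))
        (UPoly.add (UPoly.mul (UPoly.const 4) (UPoly.mul (upoly_kS g2) (upoly_kS g2)))
          (UPoly.const 1)).range hlab
    · exact poly_vld (z := fun w : ((Src × ML) × ML) × Lab => w.1.1.1)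
        (g2.comp (Poly.fst Poly.id)) (Poly.snd Poly.id)
  have l1 : Poly (fun w : Src × ML => (mains (nS w.1) (kS w.1)).flatMap fun y =>
      ((List.range (4 * (kS w.1 * kS w.1) + 1)).map fun r =>
        ((w.2, y, r) : Lab)).filter (vld (nS w.1) (ed w.1.1))) :=
    Poly.flatMap (F := fun (w : Src × ML) y =>
      ((List.range (4 * (kS w.1 * kS w.1) + 1)).map fun r =>
        ((w.2, y, r) : Lab)).filter (vld (nS w.1) (ed w.1.1)))
      (poly_mains.comp g1) l2
  have l0 : Poly (fun z : Src => (mains (nS z) (kS z)).flatMap fun x =>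
      (mains (nS z) (kS z)).flatMap fun y =>
      ((List.range (4 * (kS z * kS z) + 1)).map fun r =>
        ((x, y, r) : Lab)).filter (vld (nS z) (ed z.1))) :=
    Poly.flatMap (F := fun (z : Src) x => (mains (nS z) (kS z)).flatMap fun y =>
      ((List.range (4 * (kS z * kS z) + 1)).map fun r =>
        ((x, y, r) : Lab)).filter (vld (nS z) (ed z.1)))
      poly_mains l1
  exact Poly.cons (Poly.const (mn sM)) (Poly.cons (Poly.const (mn tM)) l0)

theorem poly_inst : Poly inst := by
  have hid : Poly (fun z : Src => z) := Poly.id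
  have hc : Poly (fun z : Src => cmat (verts (nS z) (kS z) (ed z.1)) (col (nS z) (ed z.1))) := by
    refine Poly.map (F := fun (z : Src) a => (verts (nS z) (kS z) (ed z.1)).map fun b =>
      col (nS z) (ed z.1) a b) poly_verts ?_
    exact Poly.map (F := fun (w : Src × Lab) b => col (nS w.1) (ed w.1.1) w.2 b)
      (poly_verts.comp (Poly.fst Poly.id))
      (poly_col (z := fun w : (Src × Lab) × Lab => w.1.1) (Poly.fst (Poly.fst Poly.id))
        (Poly.snd (Poly.fst Poly.id)) (Poly.snd Poly.id))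
  exact Poly.ite (Poly.decide_le (Poly.snd hid) (Poly.length (Poly.fst hid)))
    (Poly.pair hc (Poly.pair (Poly.const 0) (Poly.pair (Poly.const 1) (Poly.pair
      (Poly.mul (Poly.const 4) (Poly.mul (Poly.snd hid) (Poly.snd hid)))
      (Poly.add (Poly.mul (poly_mN 8 hid) (Poly.add (poly_mN 2 hid) (Poly.const 2)))
        (poly_mN 8 hid))))))
    (Poly.const _)

theorem inst_iff (z : Src) : HasClique z ↔ SPMVE (inst z) := by
  obtain ⟨A, k⟩ := z
  rw [hasClique_iff]
  unfold inst nS kS
  dsimp only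
  by_cases hk : k ≤ A.length
  · rw [if_pos hk, min_eq_left hk]
    refine (spmve_iff ?_).symm
    rcases Nat.eq_zero_or_pos k with h | h
    · exact Or.inl h
    · exact Or.inr (by omega)
  · rw [if_neg hk]
    constructor
    · rintro ⟨x, hx, hc⟩
      exfalso
      have hinj : Set.InjOn x (Finset.range k : Set ℕ) := by
        intro i hi j hj hxy
        rw [Finset.mem_coe, Finset.mem_range] at hi hj
        by_contra hij
        have := hc i hi j hj hij
        unfold ed at this
        simp [hxy] at this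
      have hmaps : Set.MapsTo x (Finset.range k : Set ℕ) (Finset.range A.length : Set ℕ) := by
        intro i hi
        rw [Finset.mem_coe, Finset.mem_range] at hi ⊢
        exact hx i hi
      have h1 := Finset.card_le_card_of_injOn x hmaps hinj
      rw [Finset.card_range, Finset.card_range] at h1
      exact hk h1
    · intro h
      exact absurd h not_spmve

theorem budget_inst (z : Src) : (inst z).2.2.2.1 ≤ 4 * (z.2 * z.2) := by
  unfold inst
  split_ifs
  · exact le_rfl
  · exact Nat.zero_le _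

theorem clique_reduces : FptReduces (fun x : List (List Bool) × ℕ => x.2) HasClique
    (fun x : List (List ℕ) × ℕ × ℕ × ℕ × ℕ => x.2.2.2.1) SPMVE :=
  ⟨inst, fun m => 4 * (m * m), FptTime.of_poly poly_inst,
    mul_computable (Computable.const 4) (mul_computable Computable.id Computable.id),
    fun z => ⟨inst_iff z, budget_inst z⟩⟩

end Pool.Agent.NPC.H801.MV

namespace Pool.Agent.Results.MP_40aef2_lc.BudgetW1Hard

open Pool.Agent.NPC Pool.Agent.H801.MV Pool.Agent.NPC.H801.MV Pool.Agent.H633R2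

/-- **Shortest Path Most Vital Edges is W[1]-hard with respect to the budget `k`** (the number of
edges that may be deleted); hence if it is fixed-parameter tractable with respect to `k`, then so
is every problem in W[1]. -/
theorem result :
    W1Hard (fun x : List (List ℕ) × ℕ × ℕ × ℕ × ℕ => x.2.2.2.1) SPMVE ∧
    (IsFpt (fun x : List (List ℕ) × ℕ × ℕ × ℕ × ℕ => x.2.2.2.1) SPMVE →
      ∀ (α : Type) [TEnc α] (κ : α → ℕ) (P : α → Prop), InW1 κ P → IsFpt κ P) :=
  ⟨W1Hard.of_clique clique_reduces,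
    fun h _ _ _ _ hP => W1Hard.collapse (W1Hard.of_clique clique_reduces) h hP⟩

end Pool.Agent.Results.MP_40aef2_lc.BudgetW1Hard
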